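import Mathlib

/-! # The Banach algebra `ℓ¹(G)` of a commutative group (absolutely convergent Fourier series) -/

set_option autoImplicit false

namespace Pool.Agent.Helper37.LOne

open Set Filter Topology

/-- the group algebra `ℓ¹(G)` -/
def WA (G : Type*) : Type _ := lp (fun _ : G => ℂ) 1

variable {G : Type*}

noncomputable instance : NormedAddCommGroup (WA G) :=
  inferInstanceAs (NormedAddCommGroup (lp (fun _ : G => ℂ) 1))
noncomputable instance : NormedSpace ℂ (WA G) :=
  inferInstanceAs (NormedSpace ℂ (lp (fun _ : G => ℂ) 1))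
instance : CompleteSpace (WA G) :=
  inferInstanceAs (CompleteSpace (lp (fun _ : G => ℂ) 1))

/-- the coefficients -/
def cf (f : WA G) (g : G) : ℂ := (show lp (fun _ : G => ℂ) 1 from f).1 g

@[ext] theorem ext {f g : WA G} (h : ∀ x, cf f x = cf g x) : f = g :=
  Subtype.ext (funext h)

@[simp] theorem cf_zero (x : G) : cf (0 : WA G) x = 0 := rfl
@[simp] theorem cf_add (f g : WA G) (x : G) : cf (f + g) x = cf f x + cf g x := rfl
@[simp] theorem cf_sub (f g : WA G) (x : G) : cf (f - g) x = cf f x - cf g x := rfl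
@[simp] theorem cf_neg (f : WA G) (x : G) : cf (-f) x = -cf f x := rfl
@[simp] theorem cf_smul (c : ℂ) (f : WA G) (x : G) : cf (c • f) x = c * cf f x := rfl

theorem summable_norm (f : WA G) : Summable fun x => ‖cf f x‖ := by
  have h := lp.memℓp (show lp (fun _ : G => ℂ) 1 from f)
  rw [memℓp_gen_iff (by simp)] at h
  simpa [cf] using h

theorem summable (f : WA G) : Summable fun x => cf f x := (summable_norm f).of_norm

theorem norm_eq (f : WA G) : ‖f‖ = ∑' x, ‖cf f x‖ := by
  have h := lp.norm_eq_tsum_rpow (p := 1) (by simp) (show lp (fun _ : G => ℂ) 1 from f)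
  have h2 : ‖(show lp (fun _ : G => ℂ) 1 from f)‖ =
      ∑' x, ‖(show lp (fun _ : G => ℂ) 1 from f).1 x‖ := by simpa using h
  exact h2

/-- an element with prescribed coefficients -/
def mk (f : G → ℂ) (h : Summable fun x => ‖f x‖) : WA G :=
  (show lp (fun _ : G => ℂ) 1 from ⟨f, by
    show Memℓp f 1
    rw [memℓp_gen_iff (by simp)]; simpa using h⟩)

@[simp] theorem cf_mk (f : G → ℂ) (h : Summable fun x => ‖f x‖) (x : G) : cf (mk f h) x = f x := rfl

theorem norm_cf_le (f : WA G) (x : G) : ‖cf f x‖ ≤ ‖f‖ := by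
  rw [norm_eq]
  exact (summable_norm f).le_tsum x (fun _ _ => norm_nonneg _)

theorem norm_mk_le {f : G → ℂ} {h : Summable fun x => ‖f x‖} {C : ℝ} (hC : ∑' x, ‖f x‖ ≤ C) :
    ‖mk f h‖ ≤ C := by
  rw [norm_eq]; exact hC

open Classical in
/-- the basis elements -/
noncomputable def e (g : G) : WA G :=
  mk (fun x => if x = g then 1 else 0) (by
    refine summable_of_ne_finset_zero (s := {g}) fun x hx => ?_
    rw [if_neg (by simpa using hx), norm_zero])

open Classical in
theorem cf_e (g x : G) : cf (e g) x = if x = g then 1 else 0 := rfl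

theorem norm_e (g : G) : ‖e g‖ = 1 := by
  rw [norm_eq, tsum_eq_single g]
  · simp [cf_e]
  · intro x hx; simp [cf_e, hx]

section group

variable [AddCommGroup G]

theorem summable_conv (f g : WA G) :
    Summable fun p : G × G => ‖cf f p.1 * cf g (p.2 - p.1)‖ := by
  have h := (summable_norm f).mul_norm (summable_norm g)
  have h2 : Summable fun p : G × G => ‖cf f p.1 * cf g p.2‖ := by
    refine h.congr fun p => ?_
    simp
  let e : G × G ≃ G × G :=
    ⟨fun p => (p.1, p.2 - p.1), fun p => (p.1, p.2 + p.1), fun p => by simp, fun p => by simp⟩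
  exact (e.summable_iff (f := fun p : G × G => ‖cf f p.1 * cf g p.2‖)).2 h2

theorem tsum_conv (f g : WA G) :
    ∑' p : G × G, ‖cf f p.1 * cf g (p.2 - p.1)‖ = ‖f‖ * ‖g‖ := by
  let e : G × G ≃ G × G :=
    ⟨fun p => (p.1, p.2 - p.1), fun p => (p.1, p.2 + p.1), fun p => by simp, fun p => by simp⟩
  have h1 : ∑' p : G × G, ‖cf f p.1 * cf g (p.2 - p.1)‖ = ∑' p : G × G, ‖cf f p.1 * cf g p.2‖ :=
    e.tsum_eq (fun p : G × G => ‖cf f p.1 * cf g p.2‖)
  rw [h1, norm_eq, norm_eq, tsum_mul_tsum_of_summable_norm (summable_norm f).norm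
    (summable_norm g).norm]
  refine tsum_congr fun p => ?_
  simp

theorem summable_conv_row (f g : WA G) (x : G) :
    Summable fun y => ‖cf f y * cf g (x - y)‖ := by
  have h := (summable_conv f g)
  have h' : Summable fun p : G × G => ‖cf f p.2 * cf g (p.1 - p.2)‖ :=
    ((Equiv.prodComm G G).summable_iff (f := fun p : G × G => ‖cf f p.1 * cf g (p.2 - p.1)‖)).2 h
  exact h'.prod_factor x

theorem summable_conv_norm (f g : WA G) :
    Summable fun x => ‖∑' y, cf f y * cf g (x - y)‖ := by
  have h' : Summable fun p : G × G => ‖cf f p.2 * cf g (p.1 - p.2)‖ :=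
    ((Equiv.prodComm G G).summable_iff (f := fun p : G × G => ‖cf f p.1 * cf g (p.2 - p.1)‖)).2
      (summable_conv f g)
  refine Summable.of_nonneg_of_le (fun _ => norm_nonneg _) (fun x => ?_) h'.prod
  exact norm_tsum_le_tsum_norm (summable_conv_row f g x)

noncomputable instance : Mul (WA G) :=
  ⟨fun f g => mk (fun x => ∑' y, cf f y * cf g (x - y)) (summable_conv_norm f g)⟩

theorem cf_mul (f g : WA G) (x : G) : cf (f * g) x = ∑' y, cf f y * cf g (x - y) := rfl

theorem norm_mul_le' (f g : WA G) : ‖f * g‖ ≤ ‖f‖ * ‖g‖ := by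
  have h' : Summable fun p : G × G => ‖cf f p.2 * cf g (p.1 - p.2)‖ :=
    ((Equiv.prodComm G G).summable_iff (f := fun p : G × G => ‖cf f p.1 * cf g (p.2 - p.1)‖)).2
      (summable_conv f g)
  rw [norm_eq, ← tsum_conv, ← (Equiv.prodComm G G).tsum_eq]
  simp only [Equiv.prodComm_apply, Prod.fst_swap, Prod.snd_swap]
  rw [h'.tsum_prod]
  refine (summable_conv_norm f g).tsum_le_tsum (fun x => ?_) h'.prod
  exact norm_tsum_le_tsum_norm (summable_conv_row f g x)

theorem mul_comm' (f g : WA G) : f * g = g * f := by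
  ext x
  rw [cf_mul, cf_mul, ← (Equiv.subLeft x).tsum_eq]
  refine tsum_congr fun y => ?_
  simp [mul_comm]

theorem summable_conv_c (f g : WA G) (x : G) : Summable fun y => cf f y * cf g (x - y) :=
  (summable_conv_row f g x).of_norm

theorem mul_add' (f g h : WA G) : f * (g + h) = f * g + f * h := by
  ext x
  rw [cf_add, cf_mul, cf_mul, cf_mul, ← (summable_conv_c f g x).tsum_add (summable_conv_c f h x)]
  refine tsum_congr fun y => ?_
  rw [cf_add, mul_add]

theorem smul_mul' (c : ℂ) (f g : WA G) : (c • f) * g = c • (f * g) := by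
  ext x
  rw [cf_smul, cf_mul, cf_mul, ← tsum_mul_left]
  refine tsum_congr fun y => ?_
  rw [cf_smul, mul_assoc]

theorem mul_assoc' (f g h : WA G) : f * g * h = f * (g * h) := by
  ext x
  rw [cf_mul, cf_mul]
  have hs : Summable fun p : G × G => cf f p.1 * cf g (p.2 - p.1) * cf h (x - p.2) := by
    have h1 := (summable_conv f g).mul_right ‖h‖
    refine Summable.of_norm_bounded h1 fun p => ?_
    rw [norm_mul]
    exact mul_le_mul_of_nonneg_left (norm_cf_le h _) (norm_nonneg _)
  have e1 : ∑' y, cf (f * g) y * cf h (x - y) =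
      ∑' y, ∑' z, cf f z * cf g (y - z) * cf h (x - y) := by
    refine tsum_congr fun y => ?_
    rw [cf_mul, tsum_mul_right]
  have hs' : Summable fun p : G × G => cf f p.2 * cf g (p.1 - p.2) * cf h (x - p.1) :=
    ((Equiv.prodComm G G).summable_iff
      (f := fun p : G × G => cf f p.1 * cf g (p.2 - p.1) * cf h (x - p.2))).2 hs
  rw [e1, ← Summable.tsum_comm (f := fun y z => cf f z * cf g (y - z) * cf h (x - y)) hs']
  refine tsum_congr fun z => ?_
  rw [cf_mul, ← tsum_mul_left, ← (Equiv.addRight z).tsum_eq]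
  refine tsum_congr fun y => ?_
  simp only [Equiv.coe_addRight, add_sub_cancel_right]
  rw [mul_assoc, sub_sub, add_comm y z]

theorem cf_e_mul (g : G) (f : WA G) (x : G) : cf (e g * f) x = cf f (x - g) := by
  rw [cf_mul, tsum_eq_single g]
  · simp [cf_e]
  · intro y hy; simp [cf_e, hy]

theorem e_mul_e (g h : G) : e g * e h = e (g + h) := by
  ext x
  rw [cf_e_mul, cf_e, cf_e]
  congr 1
  rw [sub_eq_iff_eq_add, add_comm]

noncomputable instance : One (WA G) := ⟨e 0⟩

theorem one_def : (1 : WA G) = e 0 := rfl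

theorem one_mul' (f : WA G) : 1 * f = f := by
  ext x
  rw [one_def, cf_e_mul, sub_zero]

noncomputable instance : CommRing (WA G) :=
  { (inferInstance : AddCommGroup (WA G)) with
    mul := (· * ·)
    one := 1
    mul_assoc := mul_assoc'
    one_mul := one_mul'
    mul_one := fun f => by rw [mul_comm', one_mul']
    left_distrib := mul_add'
    right_distrib := fun f g h => by rw [mul_comm', mul_add', mul_comm' h f, mul_comm' h g]
    zero_mul := fun f => by ext x; rw [cf_mul]; simp
    mul_zero := fun f => by ext x; rw [cf_mul]; simp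
    mul_comm := mul_comm' }

noncomputable instance : NormedCommRing (WA G) :=
  { (inferInstance : NormedAddCommGroup (WA G)), (inferInstance : CommRing (WA G)) with
    norm_mul_le := norm_mul_le' }

noncomputable instance : Algebra ℂ (WA G) :=
  Algebra.ofModule smul_mul' (fun c f g => by rw [mul_comm', smul_mul', mul_comm'])

noncomputable instance : NormedAlgebra ℂ (WA G) :=
  { (inferInstance : Algebra ℂ (WA G)) with
    norm_smul_le := norm_smul_le }

instance : NormOneClass (WA G) := ⟨norm_e 0⟩

end group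

end Pool.Agent.Helper37.LOne
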